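import Pool.Agent.Work.MP_223b32_es.Interface

/-! Block FLAB: linear algebra, with a bound for the codimension (copy of
`prod_mem_genAlg`, `powTate_le_genAlg`, `powers_final` with a bound). -/

namespace Pool.Agent.Work.ES

open Finset Polynomial Module Pool.Agent.Work.MP_223b32_ag Pool.Agent.Work.TC
open Pool.Agent.Work.TL (AA Om Stmt_FA)

namespace FLAB

section Main

variable {H : Type*} [CommRing H] [Algebra ℂ H]
  {𝒜 : ℕ → Submodule ℂ H} {φ : H →ₐ[ℂ] H} {κ : Type*} {b : Basis κ ℂ H} {δ : κ → ℕ} {lam : κ → ℂ}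

theorem prod_mem_genAlg_bdd {Q : ℂ} (hQ : Q ≠ 0) {P : ℂ → Prop} [GradedAlgebra 𝒜]
    (hδ : ∀ k, b k ∈ 𝒜 (δ k)) (hb : ∀ k, φ (b k) = lam k • b k)
    (hT : ∀ k, lam k = Q ^ δ k ∨ (δ k = 1 ∧ P (lam k))) (i : ℕ)
    (hpair : ∀ s : Multiset ℂ, (∀ z ∈ s, P z) → s ≠ 0 → s.card ≤ i → s.prod = Q ^ s.card →
      ∃ x y t, s = x ::ₘ y ::ₘ t ∧ x * y = Q ^ 2) {r : ℕ} (s : Fin r → κ) :
    ∀ (n : ℕ) (J : Finset (Fin r)), J.card = n → ∏ t ∈ J, lam (s t) = Q ^ ∑ t ∈ J, δ (s t) →
      ∑ t ∈ J, δ (s t) ≤ i →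
      ∏ t ∈ J, pr t (b (s t)) ∈
        genAlg 𝒜 φ Q r := by
  classical
  intro n
  induction n using Nat.strong_induction_on with
  | _ n ih =>
    intro J hJ hprod hle
    by_cases hex : ∃ t ∈ J, lam (s t) = Q ^ δ (s t)
    · obtain ⟨t, ht, hlam⟩ := hex
      have h1 : ∏ t ∈ J.erase t, lam (s t) = Q ^ ∑ t ∈ J.erase t, δ (s t) := by
        rw [← Finset.mul_prod_erase J _ ht, ← Finset.add_sum_erase J _ ht, pow_add, hlam] at hprod
        exact mul_left_cancel₀ (pow_ne_zero _ hQ) hprod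
      have hle1 : ∑ t ∈ J.erase t, δ (s t) ≤ i := by
        rw [← Finset.add_sum_erase J _ ht] at hle
        omega
      have h2 := ih (n - 1) (by
        have := Finset.card_pos.2 ⟨t, ht⟩
        omega) (J.erase t) (by rw [Finset.card_erase_of_mem ht, hJ]) h1 hle1
      rw [← Finset.mul_prod_erase J _ ht]
      refine mul_mem ?_ h2
      refine Algebra.subset_adjoin ⟨![t, t], δ (s t) + 0, pr 0 (b (s t)) * pr 1 1, ?_, ?_⟩
      · refine mem_powTate_two (hδ _) (SetLike.one_mem_graded 𝒜) (hb _) (v := 1) ?_ ?_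
        · rw [map_one, one_smul]
        · rw [mul_one, add_zero, hlam]
      · rw [pullback_pr_two, map_one, mul_one]
    · push Not at hex
      rcases Finset.eq_empty_or_nonempty J with rfl | hne
      · rw [Finset.prod_empty]
        exact one_mem _
      · have hall : ∀ t ∈ J, δ (s t) = 1 ∧ P (lam (s t)) := fun t ht =>
          (hT (s t)).resolve_left (hex t ht)
        have hsum : ∑ t ∈ J, δ (s t) = J.card := by
          rw [Finset.card_eq_sum_ones]
          exact Finset.sum_congr rfl fun t ht => (hall t ht).1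
        obtain ⟨x, y, T, hT1, hxy⟩ := hpair (J.val.map fun t => lam (s t)) (fun z hz => by
          obtain ⟨t, ht, rfl⟩ := Multiset.mem_map.1 hz
          exact (hall t ht).2) (by
          intro h
          rw [Multiset.map_eq_zero, Finset.val_eq_zero] at h
          exact hne.ne_empty h) (by
          rw [Multiset.card_map]
          rw [hsum] at hle
          exact hle) (by
          rw [Multiset.card_map]
          rw [hsum] at hprod
          exact hprod)
        have hx : x ∈ J.val.map fun t => lam (s t) := by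
          rw [hT1]; exact Multiset.mem_cons_self _ _
        obtain ⟨t, ht, rfl⟩ := Multiset.mem_map.1 hx
        have ht' : t ∈ J := ht
        have hJt : J.val = t ::ₘ (J.erase t).val := by
          rw [Finset.erase_val, Multiset.cons_erase ht]
        rw [hJt, Multiset.map_cons, Multiset.cons_inj_right] at hT1
        have hy : y ∈ (J.erase t).val.map fun t => lam (s t) := by
          rw [hT1]; exact Multiset.mem_cons_self _ _
        obtain ⟨t', ht'', rfl⟩ := Multiset.mem_map.1 hy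
        have ht3 : t' ∈ J.erase t := ht''
        have hd1 := (hall t ht').1
        have hd2 := (hall t' (Finset.mem_of_mem_erase ht3)).1
        have h1 : ∏ t ∈ (J.erase t).erase t', lam (s t) =
            Q ^ ∑ t ∈ (J.erase t).erase t', δ (s t) := by
          rw [← Finset.mul_prod_erase J _ ht', ← Finset.mul_prod_erase (J.erase t) _ ht3,
            ← Finset.add_sum_erase J _ ht', ← Finset.add_sum_erase (J.erase t) _ ht3,
            hd1, hd2, ← mul_assoc, hxy, ← add_assoc, pow_add] at hprod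
          exact mul_left_cancel₀ (pow_ne_zero _ hQ) hprod
        have hle1 : ∑ t ∈ (J.erase t).erase t', δ (s t) ≤ i := by
          rw [← Finset.add_sum_erase J _ ht', ← Finset.add_sum_erase (J.erase t) _ ht3] at hle
          omega
        have hcard1 : (J.erase t).card = n - 1 := by rw [Finset.card_erase_of_mem ht', hJ]
        have hcard2 : ((J.erase t).erase t').card = n - 1 - 1 := by
          rw [Finset.card_erase_of_mem ht3, hcard1]
        have hpos : 0 < n := by rw [← hJ]; exact Finset.card_pos.2 ⟨t, ht'⟩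
        have h2 := ih (n - 1 - 1) (by omega) _ hcard2 h1 hle1
        rw [← Finset.mul_prod_erase J _ ht', ← Finset.mul_prod_erase (J.erase t) _ ht3,
          ← mul_assoc]
        refine mul_mem ?_ h2
        refine Algebra.subset_adjoin ⟨![t, t'], δ (s t) + δ (s t'),
          pr 0 (b (s t)) * pr 1 (b (s t')), ?_, ?_⟩
        · refine mem_powTate_two (hδ _) (hδ _) (hb _) (hb _) ?_
          rw [hd1, hd2, hxy]
        · rw [pullback_pr_two]

theorem powTate_le_genAlg_bdd {Q : ℂ} (hQ : Q ≠ 0) {P : ℂ → Prop} [GradedAlgebra 𝒜]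
    (hδ : ∀ k, b k ∈ 𝒜 (δ k)) (hb : ∀ k, φ (b k) = lam k • b k)
    (hrepr : ∀ d, ∀ h ∈ 𝒜 d, ∀ k, b.repr h k ≠ 0 → δ k = d)
    (hT : ∀ k, lam k = Q ^ δ k ∨ (δ k = 1 ∧ P (lam k))) (i : ℕ)
    (hpair : ∀ s : Multiset ℂ, (∀ z ∈ s, P z) → s ≠ 0 → s.card ≤ i → s.prod = Q ^ s.card →
      ∃ x y t, s = x ::ₘ y ::ₘ t ∧ x * y = Q ^ 2) (r : ℕ) :
    powTate 𝒜 φ Q r i ≤ Subalgebra.toSubmodule (genAlg 𝒜 φ Q r) := by
  rw [powTate_eq_span hδ hb hrepr, Submodule.span_le]
  rintro _ ⟨⟨s, hs1, hs2⟩, rfl⟩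
  rw [SetLike.mem_coe, Subalgebra.mem_toSubmodule]
  show powBasis b r s ∈ _
  rw [powBasis_apply]
  exact prod_mem_genAlg_bdd hQ hδ hb hT i hpair s _ Finset.univ rfl (by rw [hs1, hs2])
    (le_of_eq hs1)

end Main

end FLAB

theorem stmt_FLAB : Stmt_FLAB := by
  intro H _ _ _ 𝒜 _ φ hφ hss q hq P hT hE i hpair r
  obtain ⟨κ, _, b, δ, lam, hδ, hb, hrepr⟩ := exists_homogeneous_eigenbasis hφ hss
  have hq0 : (q : ℂ) ≠ 0 := by
    have : q ≠ 0 := by omega
    exact_mod_cast this
  constructor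
  · refine FLAB.powTate_le_genAlg_bdd hq0 hδ hb hrepr (P := P) (fun k => ?_) i hpair r
    have hbk : b k ≠ 0 := b.ne_zero k
    by_cases hk : δ k = 1
    · rcases hE (lam k) (b k) (hk ▸ hδ k) hbk (hb k) with h | h
      · left; rw [h, hk, pow_one]
      · right; exact ⟨hk, h⟩
    · left
      have h1 := hT _ hk _ (hδ k)
      rw [hb k] at h1
      exact smul_left_injective ℂ hbk h1
  · have h := powL_pole hφ hδ hb hrepr (Q := (q : ℝ)) (by exact_mod_cast hq) r i
    rw [Complex.ofReal_natCast] at h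
    exact h

end Pool.Agent.Work.ES
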